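import Mathlib
import Pool.Agent.H.MP_8cb698_co.A

namespace Pool.Agent.Results.MP_8cb698_co.Holds
open Finset Equiv

/-- Permutations are 0-indexed: position `k : Fin n` stands for `k+1`, entry `a k` for `a k + 1`.
`A` is a strong up-set: if `i < j` and `pos(a,i) > pos(a,j)`, exchanging the entries `i`, `j`
of `a ∈ A` stays in `A`. -/
def StrongUp {n : ℕ} (A : Finset (Perm (Fin n))) : Prop :=
  ∀ a ∈ A, ∀ i j : Fin n, i < j → a.symm j < a.symm i → swap i j * a ∈ A

/-- `m(a) = #{k : 1 ≤ k ≤ n/2, n/2 < a_k ≤ n}` (real halves, cleared of denominators). -/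
def m {n : ℕ} (a : Perm (Fin n)) : ℕ :=
  (univ.filter fun k : Fin n => 2 * (k.val + 1) ≤ n ∧ n < 2 * ((a k).val + 1)).card

/-- the middle-gap probability measure of a set of permutations -/
noncomputable def mu {n : ℕ} (q : ℝ) (A : Finset (Perm (Fin n))) : ℝ :=
  ∑ a ∈ A, q ^ m a / ∑ b : Perm (Fin n), q ^ m b

open Pool.Agent.H.MP_8cb698_co in
theorem result (n : ℕ) (q : ℝ) (hq : 0 < q) (A B : Finset (Perm (Fin n)))
    (hA : StrongUp A) (hB : StrongUp B) : mu q A * mu q B ≤ mu q (A ∩ B) := by
  classical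
  obtain ⟨k, l, rfl, hk⟩ : ∃ k l, n = k + l ∧ k = n / 2 := ⟨n / 2, n - n / 2, by omega, rfl⟩
  have hP := main k l (fun v => if k + l < 2 * (v.val + 1) then q else 1)
    (fun v => by split_ifs <;> positivity)
  have hW : ∀ a : Perm (Fin (k + l)),
      (∏ i : Fin k, (if k + l < 2 * ((a (Fin.castAdd l i)).val + 1) then q else 1)) = q ^ m a := by
    intro a
    rw [prod_ite, prod_const, prod_const_one, mul_one]
    congr 1
    unfold m
    apply card_bij (fun i _ => Fin.castAdd l i)
    · intro i hi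
      simp only [mem_filter, mem_univ, true_and, Fin.val_castAdd] at hi ⊢
      have := i.2
      exact ⟨by omega, hi⟩
    · intro i _ j _ h
      exact Fin.castAdd_injective _ _ h
    · intro x hx
      simp only [mem_filter, mem_univ, true_and] at hx
      refine ⟨⟨x.val, by omega⟩, ?_, rfl⟩
      simp only [mem_filter, mem_univ, true_and]
      exact hx.2
  simp only [hW] at hP
  have up : ∀ C : Finset (Perm (Fin (k + l))), StrongUp C →
      Up (fun a => if a ∈ C then (1 : ℝ) else 0) := by
    intro C hC a x y hxy h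
    by_cases ha : a ∈ C
    · have := hC a ha (a y) (a x) h (by simpa using hxy)
      rw [swap_comm, ← Equiv.mul_swap_eq_swap_mul] at this
      simp [ha, this]
    · simp only [ha, if_false]
      split_ifs <;> norm_num
  have h := hP _ _ (fun a => by split_ifs <;> norm_num) (fun a => by split_ifs <;> norm_num)
    (up A hA) (up B hB)
  have e : ∀ C : Finset (Perm (Fin (k + l))),
      ∑ a, q ^ m a * (if a ∈ C then (1 : ℝ) else 0) = ∑ a ∈ C, q ^ m a := by
    intro C; simp
  have e2 : ∀ a : Perm (Fin (k + l)),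
      (if a ∈ A then (1 : ℝ) else 0) * (if a ∈ B then (1 : ℝ) else 0) =
        if a ∈ A ∩ B then (1 : ℝ) else 0 := by
    intro a
    by_cases h1 : a ∈ A <;> by_cases h2 : a ∈ B <;> simp [h1, h2]
  simp only [e2, e] at h
  have Z : 0 < ∑ b : Perm (Fin (k + l)), q ^ m b :=
    sum_pos (fun b _ => pow_pos hq _) univ_nonempty
  unfold mu
  rw [← sum_div, ← sum_div, ← sum_div, div_mul_div_comm, div_le_div_iff₀ (mul_pos Z Z) Z]
  nlinarith [mul_le_mul_of_nonneg_right h Z.le]

end Pool.Agent.Results.MP_8cb698_co.Holds
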